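import Pool.Agent.D0H71.CM.Keep
import Pool.Agent.Results.MP_b50d59_nt.ShortIntervals

/-!
# Lehmer's totient problem near the values of compositions of multiplicative functions and of their linear forms

The question is whether there is a composite integer `n > 4` such that `φ(n) ∣ n - a(n)`, where `a(n)` is the largest exponent in
the prime factorisation of `n`; equivalently, whether `φ(n) ∣ n - 1` for a composite `n`.

Let `F = f_1 ∘ f_2 ∘ ... ∘ f_r` be any composition of positive multiplicative functions of at most polynomial growth, which are at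
most linear and injective at the large primes: for example `F m = φ (σ (φ m))`, where `φ`, `σ` are Euler's function and the sum of
the divisors.

(1) Let `G` have steps bounded below by a positive constant and growth at most `v ^ d`, for example `G v = v` or `α v ^ d`. If
`d / 2 + κ < 1`, then for all `m ≤ N` but `N / (log N) ^ U` there is no solution `n` of Lehmer's problem with
`|n - G (F m)| ≤ F(m) ^ κ`. So the values of `φ ∘ σ ∘ φ` at almost all integers have a distance at least the power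
`1 / 2 - ε` to all the solutions.

(2) Let `c ≠ 0` be an integral vector, `F_1, ..., F_k` such compositions and `κ < 1 / 2`. For all but `N ^ k / (log N) ^ U` of the
`k`-tuples of numbers `m_i ≤ N` there is no solution `n` with `|n - ∑ c_i F_i (m_i)| ≤ (∑ F_i (m_i)) ^ κ`.

The values of `F` are taken with very large multiplicities, and no fibre of a composition is understood; the tool
`Pool.Agent.D0H71.CM` shows by induction over the composition that for almost all `m` one has `F m = k u` with `k ≤ N ^ η`, `u`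
squarefree and coprime to `k`, without prime factors below `(log log N) ^ B` and with few prime factors between this bound and
small powers of `N`, which bounds the number of the `u` with a given value `f (u)`.
-/

set_option autoImplicit false

namespace Pool.Agent.Results.MP_b50d59_nt.IteratedFunctions

open Finset
open Pool.Agent.N733.TG (LM Expanding lm_totient lm_sigma expanding_pow)
open Pool.Agent.D0H71.CM (Comp av_comp ckeep_good_nat ckeep_tuples)

/-- `n > 4` is composite and `φ(n) ∣ n - a(n)`, `a(n)` the largest exponent in the prime factorisation of `n` -/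
def Sol (n : ℕ) : Prop := 4 < n ∧ ¬ n.Prime ∧ n.totient ∣ (n - Nca8c8b9b.a n)

open Classical in
lemma count (ε : ℝ) (hε : 0 < ε) : ∃ C : ℝ, 0 ≤ C ∧ ∀ X : ℕ, 1 ≤ X →
    (((Ioc 0 X).filter (fun n => Sol n)).card : ℝ) ≤ C * (X : ℝ) ^ (1 / 2 + ε) := by
  obtain ⟨C, hC, h⟩ := ShortIntervals.result
  refine ⟨C * (2 ^ ε / Real.sqrt (2 * ε)), by positivity, fun X hX => ?_⟩
  have hX1 : (1 : ℝ) ≤ X := by exact_mod_cast hX
  have h1 := (h 0 X hX).1
  have h2 : (((Ioc 0 X).filter (fun n => Sol n)).card : ℝ) ≤ C * Real.sqrt ((X : ℝ) * Real.log (((0 : ℕ) : ℝ) + X + 1)) := by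
    refine le_trans (le_of_eq ?_) h1
    rw [zero_add]
    congr 2
    ext n
    rw [mem_filter, mem_filter]
    exact Iff.rfl
  refine h2.trans ?_
  rw [Nat.cast_zero, zero_add, mul_assoc]
  apply mul_le_mul_of_nonneg_left _ hC.le
  have h3 : Real.log ((X : ℝ) + 1) ≤ (2 * (X : ℝ)) ^ (2 * ε) / (2 * ε) := by
    refine (Real.log_le_rpow_div (ε := 2 * ε) (by linarith) (by positivity)).trans ?_
    apply div_le_div_of_nonneg_right _ (by positivity)
    exact Real.rpow_le_rpow (by linarith) (by linarith) (by positivity)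
  have h4 : Real.sqrt (Real.log ((X : ℝ) + 1)) ≤ 2 ^ ε / Real.sqrt (2 * ε) * (X : ℝ) ^ ε := by
    refine (Real.sqrt_le_sqrt h3).trans (le_of_eq ?_)
    rw [Real.sqrt_div (by positivity), show 2 * ε = ε + ε by ring, Real.rpow_add (by positivity),
      Real.sqrt_mul_self (by positivity), Real.mul_rpow (by norm_num) (by linarith)]
    ring
  rw [Real.sqrt_mul (by linarith), Real.rpow_add (by linarith), ← Real.sqrt_eq_rpow]
  calc Real.sqrt (X : ℝ) * Real.sqrt (Real.log ((X : ℝ) + 1)) ≤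
        Real.sqrt (X : ℝ) * (2 ^ ε / Real.sqrt (2 * ε) * (X : ℝ) ^ ε) := mul_le_mul_of_nonneg_left h4 (Real.sqrt_nonneg _)
    _ = 2 ^ ε / Real.sqrt (2 * ε) * (Real.sqrt (X : ℝ) * (X : ℝ) ^ ε) := by ring

lemma card_A {k : ℕ} (j : Fin k) (X : ℕ) :
    (Fintype.piFinset (fun i : Fin k => if i = j then ({0} : Finset ℕ) else Icc 1 X)).card = X ^ (k - 1) := by
  rw [Fintype.card_piFinset, ← mul_prod_erase univ _ (mem_univ j)]
  simp only [if_true, card_singleton, one_mul]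
  rw [prod_congr rfl (g := fun _ => X) (fun i hi => by
    rw [if_neg (ne_of_mem_erase hi), Nat.card_Icc, Nat.add_sub_cancel]), prod_const, card_erase_of_mem (mem_univ _),
    card_univ, Fintype.card_fin]

/-- the tuples whose linear form is close to a solution -/
def Wl {k : ℕ} (c : Fin k → ℤ) (κ : ℝ) : Set (Fin k → ℕ) :=
  {w | ∃ n : ℕ, Sol n ∧ |(n : ℝ) - ∑ i, (c i : ℝ) * (w i : ℝ)| ≤ (∑ i, (w i : ℝ)) ^ κ}

lemma count_lin {k : ℕ} (c : Fin k → ℤ) (hc : c ≠ 0) {κ : ℝ} (hκ0 : 0 ≤ κ) (hκ : κ < 1 / 2) :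
    ∃ δ : ℝ, 0 < δ ∧ δ ≤ k ∧ ∃ C₀ : ℝ, ∀ X : ℕ, 1 ≤ X →
      ({w : Fin k → ℕ | w ∈ Wl c κ ∧ ∀ i, 1 ≤ w i ∧ w i ≤ X}.ncard : ℝ) ≤ C₀ * (X : ℝ) ^ ((k : ℝ) - δ) := by
  classical
  obtain ⟨j, hj⟩ : ∃ j, c j ≠ 0 := by
    by_contra hcon
    push Not at hcon
    exact hc (funext hcon)
  have hk : 1 ≤ k := by
    have := j.2
    omega
  have hkr : (1 : ℝ) ≤ k := by exact_mod_cast hk
  obtain ⟨ε, hε⟩ : ∃ ε : ℝ, ε = (1 / 2 - κ) / 2 := ⟨_, rfl⟩
  have hε0 : 0 < ε := by rw [hε]; linarith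
  obtain ⟨C, hC0, hC⟩ := count ε hε0
  obtain ⟨M, hM⟩ : ∃ M : ℕ, M = ∑ i, (c i).natAbs + k := ⟨_, rfl⟩
  have hM1 : 1 ≤ M := by omega
  refine ⟨ε, hε0, by linarith, C * (M : ℝ) ^ (1 / 2 + ε) * (3 * (k : ℝ) ^ κ), fun X hX => ?_⟩
  have hX1 : (1 : ℝ) ≤ X := by exact_mod_cast hX
  have hX0 : (0 : ℝ) < X := by linarith
  have hkX : (1 : ℝ) ≤ k * X := by nlinarith
  obtain ⟨T, hT⟩ : ∃ T : ℕ, T = ⌊((k : ℝ) * X) ^ κ⌋₊ := ⟨_, rfl⟩
  obtain ⟨A, hA⟩ : ∃ A : Finset (Fin k → ℕ), A = Fintype.piFinset (fun i : Fin k => if i = j then ({0} : Finset ℕ) else Icc 1 X) :=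
    ⟨_, rfl⟩
  obtain ⟨L, hL⟩ : ∃ L : Finset ℕ, L = (Ioc 0 (M * X)).filter (fun n => Sol n) := ⟨_, rfl⟩
  obtain ⟨B, hB⟩ : ∃ B : Finset ℤ, B = Icc (-(T : ℤ)) T := ⟨_, rfl⟩
  choose! n hn1 hn2 using fun (w : Fin k → ℕ) (hw : w ∈ Wl c κ) => hw
  have hmaps : Set.MapsTo (fun w : Fin k → ℕ => (Function.update w j 0, n w, (n w : ℤ) - ∑ i, c i * (w i : ℤ)))
      {w : Fin k → ℕ | w ∈ Wl c κ ∧ ∀ i, 1 ≤ w i ∧ w i ≤ X} ((A ×ˢ (L ×ˢ B) : Finset _) : Set ((Fin k → ℕ) × ℕ × ℤ)) := by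
    rintro w ⟨hw, hwX⟩
    have hs1 : ∀ i, (1 : ℝ) ≤ w i := fun i => by exact_mod_cast (hwX i).1
    have hs2 : ∀ i, (w i : ℝ) ≤ X := fun i => by exact_mod_cast (hwX i).2
    have hsum1 : (1 : ℝ) ≤ ∑ i, (w i : ℝ) := by
      refine (hs1 j).trans ?_
      exact single_le_sum (f := fun i => (w i : ℝ)) (fun i _ => by linarith [hs1 i]) (mem_univ j)
    have hsum2 : ∑ i, (w i : ℝ) ≤ k * X := by
      refine (sum_le_sum fun i _ => hs2 i).trans (le_of_eq ?_)
      rw [sum_const, card_univ, Fintype.card_fin, nsmul_eq_mul]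
    have hp1 : (∑ i, (w i : ℝ)) ^ κ ≤ (k * X : ℝ) ^ κ := Real.rpow_le_rpow (by linarith) hsum2 hκ0
    have hp2 : (∑ i, (w i : ℝ)) ^ κ ≤ k * X := by
      refine hp1.trans ?_
      calc ((k : ℝ) * X) ^ κ ≤ ((k : ℝ) * X) ^ (1 : ℝ) := Real.rpow_le_rpow_of_exponent_le hkX (by linarith)
        _ = k * X := Real.rpow_one _
    have hw2 := hn2 w hw
    rw [mem_coe, mem_product, mem_product]
    refine ⟨?_, ?_, ?_⟩
    · rw [hA, Fintype.mem_piFinset]
      intro i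
      by_cases hi : i = j
      · rw [if_pos hi, hi, mem_singleton]
        exact Function.update_self j 0 w
      · rw [if_neg hi, mem_Icc]
        simp only [Function.update_of_ne hi]
        exact hwX i
    · rw [hL, mem_filter, mem_Ioc]
      have h4 := (hn1 w hw).1
      refine ⟨⟨by simp only; omega, ?_⟩, hn1 w hw⟩
      have h5 := (abs_le.1 hw2).2
      have h6 : ∑ i, (c i : ℝ) * (w i : ℝ) ≤ ∑ i, ((c i).natAbs : ℝ) * X := by
        apply sum_le_sum
        intro i _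
        have e1 : (c i : ℝ) ≤ ((c i).natAbs : ℝ) := by
          rw [Nat.cast_natAbs]
          exact_mod_cast le_abs_self (c i)
        calc (c i : ℝ) * (w i : ℝ) ≤ ((c i).natAbs : ℝ) * (w i : ℝ) := mul_le_mul_of_nonneg_right e1 (Nat.cast_nonneg _)
          _ ≤ ((c i).natAbs : ℝ) * X := mul_le_mul_of_nonneg_left (hs2 i) (Nat.cast_nonneg _)
      have h7 : (n w : ℝ) ≤ ((M * X : ℕ) : ℝ) := by
        rw [hM]
        push_cast
        rw [← sum_mul] at h6
        linarith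
      exact_mod_cast h7
    · rw [hB, mem_Icc, ← abs_le]
      have h5 : ((((n w : ℤ) - ∑ i, c i * (w i : ℤ)).natAbs : ℕ) : ℝ) ≤ ((k : ℝ) * X) ^ κ := by
        rw [Nat.cast_natAbs, Int.cast_abs]
        push_cast
        exact hw2.trans hp1
      have h6 := Nat.le_floor h5
      rw [Int.abs_eq_natAbs, hT]
      exact_mod_cast h6
  have hinj : Set.InjOn (fun w : Fin k → ℕ => (Function.update w j 0, n w, (n w : ℤ) - ∑ i, c i * (w i : ℤ)))
      {w : Fin k → ℕ | w ∈ Wl c κ ∧ ∀ i, 1 ≤ w i ∧ w i ≤ X} := by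
    rintro w _ w' _ h
    simp only [Prod.mk.injEq] at h
    obtain ⟨e1, e2, e3⟩ := h
    rw [e2] at e3
    have e4 : ∀ i, i ≠ j → w i = w' i := by
      intro i hi
      have := congrFun e1 i
      simpa only [Function.update_of_ne hi] using this
    have e5 : ∑ i, c i * (w i : ℤ) - ∑ i, c i * (w' i : ℤ) = c j * (w j : ℤ) - c j * (w' j : ℤ) := by
      rw [← sum_sub_distrib]
      apply sum_eq_single j
      · intro i _ hi
        rw [e4 i hi, sub_self]
      · intro hcon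
        exact absurd (mem_univ j) hcon
    have e6 : c j * ((w j : ℤ) - w' j) = 0 := by
      rw [mul_sub, ← e5]
      linarith
    rcases mul_eq_zero.1 e6 with h | h
    · exact absurd h hj
    · funext i
      by_cases hi : i = j
      · rw [hi]
        have : (w j : ℤ) = w' j := by linarith
        exact_mod_cast this
      · exact e4 i hi
  have h1 := Set.ncard_le_ncard_of_injOn _ hmaps hinj (finite_toSet _)
  rw [Set.ncard_coe_finset, card_product, card_product] at h1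
  have hcA : A.card = X ^ (k - 1) := by rw [hA]; exact card_A j X
  have hcL : (L.card : ℝ) ≤ C * ((M * X : ℕ) : ℝ) ^ (1 / 2 + ε) := by
    rw [hL]
    exact hC (M * X) (Nat.mul_pos hM1 hX)
  have hcB : (B.card : ℝ) ≤ 3 * ((k : ℝ) ^ κ * (X : ℝ) ^ κ) := by
    have h2 : B.card = 2 * T + 1 := by
      rw [hB, Int.card_Icc]
      omega
    have h3 : (T : ℝ) ≤ ((k : ℝ) * X) ^ κ := by
      rw [hT]
      exact Nat.floor_le (by positivity)
    have h4 : 1 ≤ ((k : ℝ) * X) ^ κ := Real.one_le_rpow hkX hκ0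
    rw [h2, ← Real.mul_rpow (by linarith) (by linarith)]
    push_cast
    linarith
  have h2 : (({w : Fin k → ℕ | w ∈ Wl c κ ∧ ∀ i, 1 ≤ w i ∧ w i ≤ X}.ncard : ℕ) : ℝ) ≤
      (A.card : ℝ) * ((L.card : ℝ) * (B.card : ℝ)) := by exact_mod_cast h1
  refine h2.trans ?_
  rw [hcA]
  calc ((X ^ (k - 1) : ℕ) : ℝ) * ((L.card : ℝ) * (B.card : ℝ)) ≤
        ((X ^ (k - 1) : ℕ) : ℝ) * ((C * ((M * X : ℕ) : ℝ) ^ (1 / 2 + ε)) * (3 * ((k : ℝ) ^ κ * (X : ℝ) ^ κ))) := by gcongr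
    _ = C * (M : ℝ) ^ (1 / 2 + ε) * (3 * (k : ℝ) ^ κ) * ((X : ℝ) ^ ((k : ℝ) - 1) * (X : ℝ) ^ (1 / 2 + ε) * (X : ℝ) ^ κ) := by
      push_cast
      rw [Real.mul_rpow (Nat.cast_nonneg _) hX0.le, ← Real.rpow_natCast (X : ℝ) (k - 1), Nat.cast_sub hk, Nat.cast_one]
      ring
    _ = C * (M : ℝ) ^ (1 / 2 + ε) * (3 * (k : ℝ) ^ κ) * (X : ℝ) ^ ((k : ℝ) - ε) := by
      rw [← Real.rpow_add hX0, ← Real.rpow_add hX0]
      congr 2
      rw [hε]
      ring

/-- **Lehmer's totient problem near the values of compositions of multiplicative functions.** (1) Let `F` be a composition of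
functions of the class `LM`, `G` expanding of growth `d`, `κ ≥ 0`, `d / 2 + κ < 1`. For all `U` and all large `N`, for all `m ≤ N`
but `N / (log N) ^ U`, no composite `n > 4` with `|n - G (F m)| ≤ F(m) ^ κ` satisfies `φ(n) ∣ n - a(n)`. (2) Let
`F_1, …, F_k` be compositions of functions of the class `LM`, `c ≠ 0` an integral vector and `0 ≤ κ < 1 / 2`. For all `U`, all
large `N` and all but `N ^ k / (log N) ^ U` of the tuples `m` in `[1, N] ^ k`, no composite `n > 4` with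
`|n - ∑ c_i F_i (m_i)| ≤ (∑ F_i (m_i)) ^ κ` satisfies `φ(n) ∣ n - a(n)`. (3) Euler's function and the sum of the divisors
belong to `LM`, and `α v ^ d` is expanding for `α > 0`, `d ≥ 1`. -/
theorem result :
    (∀ F : ℕ → ℕ, Comp F → ∀ (G : ℕ → ℝ) (d : ℝ), Expanding G d → ∀ κ : ℝ, 0 ≤ κ → d / 2 + κ < 1 →
      ∀ U : ℕ, ∃ N₀ : ℕ, ∀ N : ℕ, N₀ ≤ N →
      ({m : ℕ | 1 ≤ m ∧ m ≤ N ∧ ¬ ∀ n : ℕ, |(n : ℝ) - G (F m)| ≤ (F m : ℝ) ^ κ → ¬ Sol n}.ncard : ℝ) ≤
        N / Real.log N ^ U) ∧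
    (∀ (k : ℕ) (F : Fin k → ℕ → ℕ), (∀ i, Comp (F i)) → ∀ c : Fin k → ℤ, c ≠ 0 → ∀ κ : ℝ, 0 ≤ κ → κ < 1 / 2 →
      ∀ U : ℕ, ∃ N₀ : ℕ, ∀ N : ℕ, N₀ ≤ N →
      ({m : Fin k → ℕ | (∀ i, 1 ≤ m i ∧ m i ≤ N) ∧
        ¬ ∀ n : ℕ, |(n : ℝ) - ∑ i, (c i : ℝ) * (F i (m i) : ℝ)| ≤ (∑ i, (F i (m i) : ℝ)) ^ κ → ¬ Sol n}.ncard : ℝ) ≤
        (N : ℝ) ^ k / Real.log N ^ U) ∧
    (LM Nat.totient ∧ LM (fun m => ∑ d ∈ m.divisors, d)) ∧
    ∀ α d : ℝ, 0 < α → 1 ≤ d → Expanding (fun v => α * (v : ℝ) ^ d) d := by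
  classical
  refine ⟨fun F hF G d hG κ hκ h1 U => ?_, fun k F hF c hc κ hκ h1 U => ?_, ⟨lm_totient, lm_sigma⟩,
    fun α d hα hd => expanding_pow hα hd⟩
  · obtain ⟨N₀, hN₀⟩ := ckeep_good_nat (fun _ => True) (fun n => ¬ Sol n) (av_comp hF) hG (s := 1 / 2) (κ := κ)
      (by norm_num) hκ (by linarith) (fun ε hε => by
        obtain ⟨C, _, hC⟩ := count ε hε
        refine ⟨C, fun X hX => le_trans (le_of_eq ?_) (hC X hX)⟩
        rw [← Set.ncard_coe_finset]
        congr 2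
        ext t
        rw [mem_coe, mem_filter, mem_Ioc]
        constructor
        · rintro ⟨a1, a2, _, a3⟩
          exact ⟨⟨a1, a2⟩, not_not.1 a3⟩
        · rintro ⟨⟨a1, a2⟩, a3⟩
          exact ⟨a1, a2, trivial, not_not.2 a3⟩) U
    refine ⟨N₀, fun N hN => le_trans ?_ (hN₀ N hN)⟩
    have hfin : {m : ℕ | 1 ≤ m ∧ m ≤ N ∧ ¬ ∀ n : ℕ, 1 ≤ n → True → |(n : ℝ) - G (F m)| ≤ (F m : ℝ) ^ κ → ¬ Sol n}.Finite :=
      (Set.finite_Icc 1 N).subset fun m hm => ⟨hm.1, hm.2.1⟩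
    refine Nat.cast_le.2 (Set.ncard_le_ncard ?_ hfin)
    rintro m ⟨h3, h4, h5⟩
    refine ⟨h3, h4, fun h6 => h5 fun n h7 h8 => ?_⟩
    have hn : 1 ≤ n := by
      have := h8.1
      omega
    exact h6 n hn trivial h7 h8
  · obtain ⟨δ, hδ, hδk, C₀, hC₀⟩ := count_lin c hc hκ h1
    obtain ⟨N₀, hN₀⟩ := ckeep_tuples (F := F) (fun i => av_comp (hF i)) hδ hδk U C₀
    refine ⟨N₀, fun N hN => le_trans ?_ (hN₀ N hN (Wl c κ) hC₀)⟩
    have hfin : {m : Fin k → ℕ | (∀ i, 1 ≤ m i ∧ m i ≤ N) ∧ (fun i => F i (m i)) ∈ Wl c κ}.Finite := by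
      apply (Set.Finite.pi' fun _ : Fin k => Set.finite_Icc 1 N).subset
      intro m hm i
      exact hm.1 i
    refine Nat.cast_le.2 (Set.ncard_le_ncard ?_ hfin)
    rintro m ⟨h3, h4⟩
    refine ⟨h3, ?_⟩
    push Not at h4
    obtain ⟨n, h5, h6⟩ := h4
    exact ⟨n, h6, h5⟩

end Pool.Agent.Results.MP_b50d59_nt.IteratedFunctions
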