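import Pool.Agent.D0H48.Nq.Fin
import Pool.Agent.H95R2.Leh.Congr

set_option autoImplicit false

/-!
# The quotient in Lehmer's totient problem is at most an iterated logarithm

Let `n > 4` be composite with `φ(n) ∣ n - a(n)`, with least prime factor `P`, and let `κ = n / φ(n)`, so that
`(n - 1) / φ(n) < κ`. Then `n` has at least `P ^ (c exp ((1 - ε) κ))` distinct prime factors. In particular
`κ ≤ (1 + o(1)) log log ω(n) ≤ (1 + o(1)) log log log n`.

Proof. No prime factor of `n` is `1` modulo another one. By the fundamental lemma of the sieve over the primes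
(`Pool.Agent.H373R2.T7.lam_fund`, from the Bombieri-Vinogradov theorem) the set `S` of the prime factors of `n` has at
most `(1 + ε) / G(y)` times the expected mass between `y ^ K` and `y ^ (K ^ 2)`, where `G(y)` is the product of
`(p - 1) / (p - 2)` over `p ∈ S`, `p ≤ y`. So `G` satisfies a delayed differential inequality, from which
`G(y) ≤ (1 + ε) log (1 + log y / log P) + C` (`Pool.Agent.D0H48.Nq.growth`).
-/

namespace Pool.Agent.Results.MP_b50d59_nt.QuotientIteratedLog

open Pool.Agent.H95R2.Leh

/-- For every `ε > 0` there is `c > 0` such that every composite `n > 4` with `φ(n) ∣ n - a(n)` has at least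
`P ^ (c exp ((1 - ε) n / φ(n)))` distinct prime factors, where `P` is its least prime factor. -/
theorem result (ε : ℝ) (hε : 0 < ε) : ∃ c : ℝ, 0 < c ∧ ∀ n : ℕ, 4 < n → ¬ n.Prime →
    n.totient ∣ (n - Nca8c8b9b.a n) →
    (n.minFac : ℝ) ^ (c * Real.exp ((1 - ε) * ((n : ℝ) / n.totient))) ≤ (n.primeFactors.card : ℝ) := by
  obtain ⟨c, hc, h⟩ := Pool.Agent.D0H48.Nq.coprime_bound ε hε
  refine ⟨c, hc, fun n h4 hnp hd => ?_⟩
  obtain ⟨h1, -, h2⟩ := leh_of_congr h4 hnp hd
  have hcop : Nat.Coprime n n.totient := by
    have h3 : Nat.gcd n n.totient ∣ 1 := by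
      have h5 : Nat.gcd n n.totient ∣ n - 1 := (Nat.gcd_dvd_right _ _).trans h2
      have h6 : Nat.gcd n n.totient ∣ n := Nat.gcd_dvd_left _ _
      have h7 := Nat.dvd_sub h6 h5
      rwa [show n - (n - 1) = 1 by omega] at h7
    exact Nat.dvd_one.1 h3
  have h2' : 2 * n.totient ≤ n := by
    obtain ⟨k, hk⟩ := h2
    have hlt : n.totient < n - 1 := by
      have h5 := Nat.totient_lt n h1
      have h6 : n.totient ≠ n - 1 := by
        intro h6
        exact hnp ((Nat.totient_eq_iff_prime (by omega)).1 h6)
      omega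
    have hk2 : 2 ≤ k := by
      by_contra hcon
      have : k ≤ 1 := by omega
      have : n.totient * k ≤ n.totient * 1 := Nat.mul_le_mul_left _ this
      omega
    have : n.totient * 2 ≤ n.totient * k := Nat.mul_le_mul_left _ hk2
    omega
  have h5 := h n (by omega) hcop h2'
  have hP : 0 < (n.minFac : ℝ) := by exact_mod_cast Nat.minFac_pos n
  have hw : 0 < (n.primeFactors.card : ℝ) := by
    exact_mod_cast Finset.card_pos.2 (Nat.nonempty_primeFactors.2 (by omega))
  rw [Real.rpow_def_of_pos hP, ← Real.le_log_iff_exp_le hw]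
  linarith

end Pool.Agent.Results.MP_b50d59_nt.QuotientIteratedLog
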