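import Pool.Agent.D0H92.LE.Main
import Pool.Agent.H95R2.Leh.Congr

set_option autoImplicit false

/-!
# The congruence `n ≡ a(n) (mod φ(n))` in sparse digit sets: power saving

Let `F` be the set of the integers `c + g v`, where `v` runs over the integers with `k` digits in base `B` whose digit number `j`
lies in an arbitrary set `A j` with at least two digits, for every `j`; the primes which divide `g ≠ 0` lie in a fixed finite set,
and `|c|` and `|g|` are at most `exp (|F| ^ κ)`. So `F` can have as few as `X ^ ε` members up to `X`, for every `ε > 0`, and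
(if `c` is large) even fewer: all the members can be near `exp (|F| ^ κ)`.

At most `|F| ^ (1 - κ)` members `n > 4` of `F` are composite and satisfy `φ(n) ∣ n - a(n)`.

Method: such an `n` satisfies `n ≡ 1 (mod φ(n))` (Lehmer's totient problem), and it has a divisor `d` in every interval
`(z / (16 R), z]` with `z ≤ n`, where `R` is a bound for the number of primes of `n` (divisor chain). All these `n` lie in one
class modulo `d φ(d)`. The number of members of `F` in a class modulo `q ≤ |F| ^ c` is at most `2 |F| q ^ (- 3 / 4)`, if `q` is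
coprime to `g B!` (Fourier analysis for digit sets), and the sum over `d` is bounded by Rankin's trick.
-/

namespace Pool.Agent.Results.MP_b50d59_nt.SparseDigitSets

open Finset

/-- The integer `n > 4` is composite and satisfies the congruence `n ≡ a(n) (mod φ(n))` (as in the frozen statement; `Nca8c8b9b.a n`
is the largest exponent in the factorisation of `n`). -/
def Solution (n : ℤ) : Prop :=
  4 < n.toNat ∧ ¬ n.toNat.Prime ∧ n.toNat.totient ∣ (n.toNat - Nca8c8b9b.a n.toNat)

/-- The integers `c + g v`, where `v` has `k` digits in base `B` and the digit number `j` of `v` (counted from the right) is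
in `A j`. -/
def family (c g : ℤ) (B : ℕ) {k : ℕ} (A : Fin k → Finset ℕ) : Finset ℤ :=
  (Fintype.piFinset A).image fun a => c + g * ∑ j : Fin k, (B : ℤ) ^ (j : ℕ) * a j

open Classical in
/-- **Main theorem.** -/
theorem result (B : ℕ) (hB : 2 ≤ B) (P : Finset ℕ) :
    ∃ κ : ℝ, 0 < κ ∧ κ < 1 ∧ ∃ k₀ : ℕ, ∀ k : ℕ, k₀ ≤ k → ∀ A : Fin k → Finset ℕ,
      (∀ j, ∀ a ∈ A j, a < B) → (∀ j, 2 ≤ (A j).card) →
      ∀ c g : ℤ, g ≠ 0 → (∀ p : ℕ, p.Prime → (p : ℤ) ∣ g → p ∈ P) →
      |(c : ℝ)| ≤ Real.exp (((family c g B A).card : ℝ) ^ κ) → |(g : ℝ)| ≤ Real.exp (((family c g B A).card : ℝ) ^ κ) →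
      (((family c g B A).filter fun n => Solution n).card : ℝ) ≤ ((family c g B A).card : ℝ) ^ (1 - κ) := by
  obtain ⟨κ, hκ, hκ1, k₀, hk₀⟩ := Pool.Agent.D0H92.LE.lehmer_digits B hB P
  refine ⟨κ, hκ, hκ1, k₀, ?_⟩
  intro k hk A hA h2 c g hg hgP hc hg2
  have hcard : (family c g B A).card = (Fintype.piFinset A).card := by
    apply card_image_of_injOn
    exact Pool.Agent.D0H92.LE.num_inj hg hB A hA
  rw [hcard] at hc hg2 ⊢
  refine le_trans ?_ (hk₀ k hk A hA h2 c g hg hgP hc hg2)
  unfold family
  rw [filter_image]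
  refine Nat.cast_le.2 (card_image_le.trans (card_le_card ?_))
  intro t ht
  rw [mem_filter] at ht ⊢
  refine ⟨ht.1, ?_⟩
  obtain ⟨h4, h5, h6⟩ := ht.2
  exact Pool.Agent.H95R2.Leh.leh_of_congr h4 h5 h6

end Pool.Agent.Results.MP_b50d59_nt.SparseDigitSets
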